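import Mathlib
import Pool.Agent.R255.HB

/-!
# One-dimensional heavy-ball cycles with one fixed ordering: disproof
-/

namespace Pool.Agent.Results.MP_28939e_an.OrderingFails

open Set

section Defs

variable {E : Type*} [NormedAddCommGroup E] [InnerProductSpace ℝ E] [CompleteSpace E]

/-- The class `F_{μ,L}(E)`: differentiable, `μ`-strongly convex, `L`-Lipschitz gradient. -/
def InF (μ L : ℝ) (f : E → ℝ) : Prop :=
  Differentiable ℝ f ∧ StrongConvexOn univ μ f ∧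
    ∀ x y, ‖gradient f x - gradient f y‖ ≤ L * ‖x - y‖

/-- `x = (x_0, …, x_{K-1})` (indices mod `K`), not all equal, is a cycle of length `K` of the
heavy-ball method with step size `γ` and momentum `β` on `f`. -/
def IsCycle (K : ℕ) (γ β : ℝ) (f : E → ℝ) (x : ZMod K → E) : Prop :=
  (∃ i j, x i ≠ x j) ∧
    ∀ i : ZMod K, x (i + 1) = x i - γ • gradient f (x i) + β • (x i - x (i - 1))

end Defs

/-- The set `Ω` of tunings `(γ, β)` for which the heavy-ball method has a cycle of some length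
`K ≥ 3` on `F_{μ,L}(ℝ^d)` for some `d ≥ 1`. -/
def Omega (μ L : ℝ) : Set (ℝ × ℝ) :=
  {p | ∃ K : ℕ, 3 ≤ K ∧ ∃ d : ℕ, 1 ≤ d ∧ ∃ f : EuclideanSpace ℝ (Fin d) → ℝ, InF μ L f ∧
    ∃ x : ZMod K → EuclideanSpace ℝ (Fin d), IsCycle K p.1 p.2 f x}

/-- The permutation `σ_K`: `σ_K(0) = 0`, and `(σ_K(1), …, σ_K(K-1))` lists the odd integers of
`[1,K-1]` in increasing order (`σ_K(j) = 2j-1` for `1 ≤ j ≤ ⌊K/2⌋`), then the even integers of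
`[2,K-1]` in decreasing order (`σ_K(j) = 2(K-j)` for `⌊K/2⌋ < j ≤ K-1`). -/
def sigma (K j : ℕ) : ℕ := if j = 0 then 0 else if j ≤ K / 2 then 2 * j - 1 else 2 * (K - j)

/-- `σ_K`-ordered one-dimensional tuples. -/
def Ordered (K : ℕ) (x : ZMod K → ℝ) : Prop :=
  ∀ i j : ZMod K, sigma K i.val < sigma K j.val → x i ≤ x j

/-- Q1 of MP_28939e_an is false, for every `0 < μ ≤ L`; moreover it fails for a tuning with
`0 < β < 1` and `0 < γ < 2(1+β)/L`. -/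
theorem result :
    (∀ μ L : ℝ, 0 < μ → μ ≤ L →
      ¬ ∀ γ β : ℝ, (γ, β) ∈ Omega μ L → ∃ K : ℕ, 3 ≤ K ∧ ∃ f : ℝ → ℝ, InF μ L f ∧
        ∃ x : ZMod K → ℝ, IsCycle K γ β f x ∧ Ordered K x) ∧
    (∀ μ L γ β : ℝ, 0 < γ → β < 1 → 1 + 2 * β < γ * μ → ¬ ∃ K : ℕ, 3 ≤ K ∧ ∃ f : ℝ → ℝ,
      InF μ L f ∧ ∃ x : ZMod K → ℝ, IsCycle K γ β f x ∧ Ordered K x) ∧
    (((1 : ℝ), (9 / 10 : ℝ)) ∈ Omega 3 (37 / 10) ∧
      ¬ ∃ K : ℕ, 3 ≤ K ∧ ∃ f : ℝ → ℝ, InF 3 (37 / 10) f ∧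
        ∃ x : ZMod K → ℝ, IsCycle K 1 (9 / 10) f x ∧ Ordered K x) := by
  have obs : ∀ μ L γ β : ℝ, 0 < γ → β < 1 → 1 + 2 * β < γ * μ → ¬ ∃ K : ℕ, 3 ≤ K ∧
      ∃ f : ℝ → ℝ, InF μ L f ∧ ∃ x : ZMod K → ℝ, IsCycle K γ β f x ∧ Ordered K x := by
    rintro μ L γ β hγ hβ hs ⟨K, hK, f, hf, x, hx, hp⟩
    exact Pool.Agent.R255.HB.no_pattern hK hγ hβ hs hf hx hp
  refine ⟨?_, obs, Pool.Agent.R255.HB.mem_Omega_five,
    obs 3 (37 / 10) 1 (9 / 10) one_pos (by norm_num) (by norm_num)⟩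
  intro μ L hμ hL h
  refine obs μ L (2 * (1 + 0) / μ) 0 (div_pos (by norm_num) hμ) one_pos ?_
    (h _ 0 (Pool.Agent.R255.HB.mem_Omega_four hμ hL))
  rw [div_mul_cancel₀ _ hμ.ne']
  norm_num

end Pool.Agent.Results.MP_28939e_an.OrderingFails
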